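import Pool.Agent.Helper59.TD.Fin.Final

/-!
# A highly dominant tournament that is not transitive

The tournament on the vertices `0, 1, 2, 3, 4` in which `i → j` for `i > j`, except that the
arc between the first and the last vertex is reversed (`0 → 4`), lies in every maximal dominant
family of tournaments on five vertices.
-/

namespace Pool.Agent.Results.MP_26eea7_co.HighlyDominantFive

open Pool.Agent.Helper59.TD

theorem result : ∃ H : Tour 5,
    (∀ i j : Fin 5, H.adj i j = true ↔ (j < i ∧ ¬ (i = 4 ∧ j = 0)) ∨ (i = 0 ∧ j = 4)) ∧
    HighlyDominant H ∧ ¬ H.IsTransitive :=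
  ⟨Rep 4, fun i j => by rw [Rep4_adj]; exact decide_eq_true_iff, highlyDominant_four, Rep4_not_transitive⟩

end Pool.Agent.Results.MP_26eea7_co.HighlyDominantFive
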